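import Pool.Agent.U165.OS.Pf

/-!
# The Pfaffian identity for odd-order off-diagonally symmetric alternating sign matrices

Let `c a b` be the coefficient of `x ^ a y ^ b` in `(y - x) / ((1 - x y) (1 - x - y))`. For all `n`
the two Pfaffians of order `2 n + 2` of the problem, with the entries `c a b`, `a < b ≤ 2 n`, and the
last columns `(-1) ^ a` and `((-1) ^ a + 2 ^ a) / 2`, coincide. The problem states that this is
equivalent to the product formula for the number of off-diagonally symmetric alternating sign
matrices of order `2 n + 1`.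

Proof. The skew form with the values `c a b` on the powers `u ^ a`, `v ^ b` is the residue at
infinity of `(u - v) / ((u v - 1) (u v - u - v))`. The substitution `u ↦ 1 - u`, `v ↦ 1 - v`
exchanges the two factors of the denominator and changes the sign of the numerator, so the form
changes its sign. The substitution takes the last column `x ^ a` to `(1 - x) ^ a`, its determinant
on the polynomials of degree at most `2 n` is `(-1) ^ n`, and the Pfaffian of order `2 n + 2` of
`-A` is `(-1) ^ (n + 1)` times that of `A`. So the Pfaffians with the last columns `x ^ a` and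
`(1 - x) ^ a` coincide for every `x`; take `x = -1`.
-/

set_option autoImplicit false

namespace Pool.Agent.Results.MP_d12cfa_co.PfaffianIdentity

open MvPowerSeries

/-- The Pfaffian of a skew-symmetric matrix, by expansion along the first row (`1` for order `0` and
`0` for order `1`). -/
def pf : (N : ℕ) → Matrix (Fin N) (Fin N) ℚ → ℚ
  | 0, _ => 1
  | 1, _ => 0
  | (N + 2), A => ∑ j : Fin (N + 1), (-1) ^ (j : ℕ) * A 0 j.succ *
      pf N (A.submatrix (fun k => (j.succAbove k).succ) (fun k => (j.succAbove k).succ))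

/-- The coefficient of `x ^ a y ^ b` in `(y - x) / ((1 - x y) (1 - x - y))`; `x = X 0`, `y = X 1`. -/
noncomputable def c (a b : ℕ) : ℚ :=
  coeff (Finsupp.single 0 a + Finsupp.single 1 b)
    ((X 1 - X 0) * ((1 - X 0 * X 1) * (1 - X 0 - X 1))⁻¹ : MvPowerSeries (Fin 2) ℚ)

/-- The skew-symmetric array with rows and columns `0, …, 2 n + 1`: for `a < b` the entry is `c a b`
if `b ≤ 2 n`, and `v a` in the last column `b = 2 n + 1`. -/
noncomputable def array (n : ℕ) (v : ℕ → ℚ) : Matrix (Fin (2 * n + 2)) (Fin (2 * n + 2)) ℚ :=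
  fun a b => if a < b then (if (b : ℕ) ≤ 2 * n then c a b else v a)
    else if b < a then - (if (a : ℕ) ≤ 2 * n then c b a else v b) else 0

theorem pf_eq : ∀ (N : ℕ) (A : Matrix (Fin N) (Fin N) ℚ), pf N A = Helper929.pf N A
  | 0, _ => rfl
  | 1, _ => rfl
  | (N + 2), A => by
    simp only [pf, Helper929.pf]
    exact Finset.sum_congr rfl fun j _ => by rw [pf_eq N]

/-- **The Pfaffian identity.** For all `n` the Pfaffians with the last columns `(-1) ^ a` and
`((-1) ^ a + 2 ^ a) / 2` coincide. More generally, the Pfaffians with the last columns `x ^ a` and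
`(1 - x) ^ a` coincide. -/
theorem result (n : ℕ) :
    pf (2 * n + 2) (array n fun a => (-1) ^ a) =
      pf (2 * n + 2) (array n fun a => ((-1) ^ a + 2 ^ a) / 2) ∧
    ∀ x : ℚ, pf (2 * n + 2) (array n fun a => x ^ a) =
      pf (2 * n + 2) (array n fun a => (1 - x) ^ a) := by
  have hx : ∀ x : ℚ, pf (2 * n + 2) (array n fun a => x ^ a) =
      pf (2 * n + 2) (array n fun a => (1 - x) ^ a) := by
    intro x
    rw [pf_eq, pf_eq]
    exact U165.OS.pf_arr n _ _ (fun a => U165.OS.S_pow x a)
  refine ⟨?_, hx⟩
  have h1 := hx (-1)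
  rw [show (1 : ℚ) - -1 = 2 by norm_num] at h1
  have h2 := U165.OS.pf_lin n (1 / 2) (1 / 2) (fun a => (-1) ^ a) (fun a => 2 ^ a)
  have h3 : (fun a : ℕ => (1 / 2 : ℚ) * (-1) ^ a + 1 / 2 * 2 ^ a) =
      fun a => ((-1) ^ a + 2 ^ a) / 2 := by
    funext a; ring
  rw [h3] at h2
  have h4 : Helper929.pf (2 * n + 2) (U165.OS.arr n fun a => ((-1) ^ a + 2 ^ a) / 2) =
      pf (2 * n + 2) (array n fun a => ((-1) ^ a + 2 ^ a) / 2) := (pf_eq _ _).symm
  have h5 : Helper929.pf (2 * n + 2) (U165.OS.arr n fun a => (-1) ^ a) =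
      pf (2 * n + 2) (array n fun a => (-1) ^ a) := (pf_eq _ _).symm
  have h6 : Helper929.pf (2 * n + 2) (U165.OS.arr n fun a => 2 ^ a) =
      pf (2 * n + 2) (array n fun a => 2 ^ a) := (pf_eq _ _).symm
  rw [h4, h5, h6, ← h1] at h2
  linarith

end Pool.Agent.Results.MP_d12cfa_co.PfaffianIdentity
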